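import Pool.Agent.Helper6.HC.Final2

/-!
Integral points on all Mordell curves `y² = x³ + d` together that violate Hall's inequality, even
with an exponent a little below `2`: a count with an exponent less than `1/3`.
-/

set_option autoImplicit false

namespace Pool.Agent.Results.MP_9d7cd1_nt.BelowOneThird

open Pool.Agent.Helper6.HC

/-- the integral point `(x, y)`, `x ≠ 0`, of the curve `y² = x³ + d`, `d ≠ 0`, violates
`log |x| < k log |d| + C` -/
def Violates (k C : ℝ) (d x y : ℤ) : Prop :=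
  d ≠ 0 ∧ x ≠ 0 ∧ y ^ 2 = x ^ 3 + d ∧ k * Real.log |(d : ℝ)| + C ≤ Real.log |(x : ℝ)|

/-- the points with `|x| ≤ X` that violate the inequality, on all curves together -/
def Points (k C X : ℝ) : Set (ℤ × ℤ) :=
  {e | |(e.1 : ℝ)| ≤ X ∧ ∃ d : ℤ, Violates k C d e.1 e.2}

/-- the curves with `|d| ≤ D` that have a point with `|x| ≤ D²` violating the inequality -/
def Curves (k C D : ℝ) : Set ℤ :=
  {d | |(d : ℝ)| ≤ D ∧ ∃ x y : ℤ, |(x : ℝ)| ≤ D ^ 2 ∧ Violates k C d x y}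

theorem points_sub {k C : ℝ} (hk : k = 2 - 3 / 10 ^ 6) (X : ℝ) :
    Points k C X ⊆ Exc (Real.exp (-C / k)) (1 / 2 + 1 / 1000000) X := by
  have hk0 : 0 < k := by rw [hk]; norm_num
  have hk1 : 1 / k ≤ 1 / 2 + 1 / 1000000 := by
    rw [div_le_iff₀ hk0, hk]; norm_num
  rintro ⟨x, y⟩ ⟨hX, d, hd, hx, he, hv⟩
  simp only at hX hx he hv ⊢
  refine ⟨hX, fun h => hd ?_, ?_⟩
  · simp only at h
    rw [he] at h
    linarith
  · simp only
    have hxR : (1 : ℝ) ≤ |(x : ℝ)| := by exact_mod_cast Int.one_le_abs hx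
    have hdR : (1 : ℝ) ≤ |(d : ℝ)| := by exact_mod_cast Int.one_le_abs hd
    have e1 : (y : ℝ) ^ 2 - (x : ℝ) ^ 3 = d := by
      have : (y : ℝ) ^ 2 = (x : ℝ) ^ 3 + d := by exact_mod_cast he
      rw [this]; ring
    rw [e1]
    have h1 : Real.log |(d : ℝ)| ≤ (1 / k) * Real.log |(x : ℝ)| + -C / k := by
      have : Real.log |(d : ℝ)| = (k * Real.log |(d : ℝ)| + C) / k - C / k := by
        field_simp
        ring
      rw [this]
      have h2 : (k * Real.log |(d : ℝ)| + C) / k ≤ Real.log |(x : ℝ)| / k := by gcongr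
      have h3 : (1 / k) * Real.log |(x : ℝ)| = Real.log |(x : ℝ)| / k := by ring
      have h4 : -C / k = -(C / k) := by ring
      rw [h3, h4]
      linarith
    calc |(d : ℝ)| = Real.exp (Real.log |(d : ℝ)|) := (Real.exp_log (by linarith)).symm
      _ ≤ Real.exp ((1 / k) * Real.log |(x : ℝ)| + -C / k) := Real.exp_le_exp.mpr h1
      _ = Real.exp (-C / k) * |(x : ℝ)| ^ (1 / k) := by
          rw [Real.exp_add, Real.rpow_def_of_pos (by linarith), mul_comm (1 / k), mul_comm]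
      _ ≤ Real.exp (-C / k) * |(x : ℝ)| ^ (1 / 2 + 1 / 1000000 : ℝ) := by gcongr

/-- **Hall's inequality fails for at most `X ^ (1/3 - 10⁻⁶)` points with `|x| ≤ X`**, even with the
exponent `2 - 3 · 10⁻⁶` in place of `2 + ε`; among the curves with `|d| ≤ D` at most
`D ^ (2/3 - 2 · 10⁻⁶)` have an exceptional point with `|x| ≤ D²`. -/
theorem result (C : ℝ) : ∃ K : ℝ,
    (∀ X : ℝ, 1 ≤ X → (Points (2 - 3 / 10 ^ 6) C X).Finite ∧
      ((Points (2 - 3 / 10 ^ 6) C X).ncard : ℝ) ≤ K * X ^ (1 / 3 - 1 / 10 ^ 6 : ℝ)) ∧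
    (∀ D : ℝ, 1 ≤ D → (Curves (2 - 3 / 10 ^ 6) C D).Finite ∧
      ((Curves (2 - 3 / 10 ^ 6) C D).ncard : ℝ) ≤ K * D ^ (2 / 3 - 2 / 10 ^ 6 : ℝ)) := by
  obtain ⟨k, hk⟩ : ∃ k : ℝ, k = 2 - 3 / 10 ^ 6 := ⟨_, rfl⟩
  rw [← hk]
  obtain ⟨K, hK⟩ := main2 (Real.exp (-C / k))
  have hA : ∀ X : ℝ, 1 ≤ X → (Points k C X).Finite ∧
      ((Points k C X).ncard : ℝ) ≤ K * X ^ (1 / 3 - 1 / 10 ^ 6 : ℝ) := by
    intro X hX
    obtain ⟨hf, hc⟩ := hK X hX
    refine ⟨hf.subset (points_sub hk X), ?_⟩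
    have h1 : ((Points k C X).ncard : ℝ) ≤
        ((Exc (Real.exp (-C / k)) (1 / 2 + 1 / 1000000) X).ncard : ℝ) := by
      exact_mod_cast Set.ncard_le_ncard (points_sub hk X) hf
    refine h1.trans (hc.trans (le_of_eq ?_))
    norm_num
  refine ⟨K, hA, fun D hD => ?_⟩
  have hD2 : 1 ≤ D ^ 2 := by nlinarith
  obtain ⟨hf, hc⟩ := hA (D ^ 2) hD2
  have hsub : Curves k C D ⊆ (fun e : ℤ × ℤ => e.2 ^ 2 - e.1 ^ 3) '' Points k C (D ^ 2) := by
    rintro d ⟨-, x, y, hx, hv⟩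
    refine ⟨(x, y), ⟨hx, d, hv⟩, ?_⟩
    obtain ⟨-, -, he, -⟩ := hv
    simp only
    rw [he]
    ring
  refine ⟨(hf.image _).subset hsub, ?_⟩
  have h1 : ((Curves k C D).ncard : ℝ) ≤ ((Points k C (D ^ 2)).ncard : ℝ) := by
    have := (Set.ncard_le_ncard hsub (hf.image _)).trans (Set.ncard_image_le hf)
    exact_mod_cast this
  refine h1.trans (hc.trans (le_of_eq ?_))
  congr 1
  rw [← Real.rpow_natCast D 2, ← Real.rpow_mul (by linarith)]
  norm_num

end Pool.Agent.Results.MP_9d7cd1_nt.BelowOneThird
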