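import Pool.Agent.Helper6.HallRep.Pair

/-!
# Repulsion of the integral points close to the bound of Hall's conjecture

Let `C ≥ 1`. We consider the integers `x > C`, `y` with `0 < |y ^ 2 - x ^ 3| ≤ C √x`, which are those for
which Hall's original inequality `|y ^ 2 - x ^ 3| > C √x` fails. There is `c > 0`, depending only on
`C`, such that

(1) for all coprime positive integers `a`, `b`: `b ^ 2 x ≠ a ^ 2`;
`|b ^ 2 x - a ^ 2| ^ 5 ≥ c a ^ 4` or `|b ^ 2 x - a ^ 2| b ^ 5 ≥ c a`;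
`|b ^ 2 x - a ^ 2| ^ 3 ≥ c a ^ 2` or `b ^ 5 ≥ c a`;
`|b ^ 2 x - a ^ 2| ^ 2 ≥ c a` or `b ^ 5 ≥ c a ^ 2`;

(2) `|√x - k| ^ 10 x ≥ c` for all integers `k`: the distance of `√x` from the integers is at least
`c' x ^ (-1 / 10)`, so that `|x - k ^ 2| ≥ c'' x ^ (2 / 5)` for all integers `k`;

(3) for two such points with `x < x'`: `(x' - x) ^ 4 ≥ c x'`.

The proof uses the binary forms of degree 3, 4 and 6 (dihedral, tetrahedral, octahedral) attached to
the point, whose values at `(a, b)` are integers, small if `a / b` is close to `√x`, and, for (3), the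
integer `9 (x' - x) ^ 2 (x + x') - 8 (y' - y) ^ 2`.
-/

set_option autoImplicit false

namespace Pool.Agent.Results.MP_9d7cd1_nt.Repulsion

/-- the points at which Hall's inequality with the constant `C` fails -/
def Fails (C : ℝ) (x y : ℤ) : Prop :=
  C < x ∧ y ^ 2 ≠ x ^ 3 ∧ |((y : ℝ) ^ 2 - (x : ℝ) ^ 3)| ≤ C * √(x : ℝ)

theorem result (C : ℝ) (hC : 1 ≤ C) : ∃ c : ℝ, 0 < c ∧
    (∀ x y a b : ℤ, Fails C x y → 0 < a → 0 < b → IsCoprime a b →
      b ^ 2 * x ≠ a ^ 2 ∧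
      (c * a ^ 4 ≤ |(b : ℝ) ^ 2 * x - a ^ 2| ^ 5 ∨ c * a ≤ |(b : ℝ) ^ 2 * x - a ^ 2| * b ^ 5) ∧
      (c * a ^ 2 ≤ |(b : ℝ) ^ 2 * x - a ^ 2| ^ 3 ∨ c * a ≤ (b : ℝ) ^ 5) ∧
      (c * a ≤ |(b : ℝ) ^ 2 * x - a ^ 2| ^ 2 ∨ c * a ^ 2 ≤ (b : ℝ) ^ 5)) ∧
    (∀ x y k : ℤ, Fails C x y → c ≤ |√(x : ℝ) - k| ^ 10 * x) ∧
    (∀ x y x' y' : ℤ, Fails C x y → Fails C x' y' → x < x' → c * x' ≤ ((x' : ℝ) - x) ^ 4) := by
  set e : ℝ := 1 / (10 ^ 7 * C ^ 2) with he
  have he0 : 0 < e := by positivity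
  have he1 : e * (10 ^ 7 * C ^ 2) ≤ 1 := by
    rw [he, one_div, inv_mul_cancel₀ (by positivity)]
  obtain ⟨c1, -, -⟩ := Pool.Agent.Helper6.HallRep.small_of_pow hC he1 he0
  have hle : e ≤ 1 := by linarith
  refine ⟨(e ^ 4) ^ 2 / 2 ^ 20, by positivity, ?_, ?_, ?_⟩
  · rintro x y a b ⟨h1, h2, h3⟩ ha hb hcop
    obtain ⟨k0, k1, k2, k3⟩ := Pool.Agent.Helper6.HallRep.approx hC he0 he1 h1 h2 ha hb hcop h3
    push_cast at k1 k2 k3
    have haR : (0 : ℝ) < a := by exact_mod_cast ha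
    have h4 : (e ^ 4) ^ 2 / 2 ^ 20 ≤ e := by
      calc (e ^ 4) ^ 2 / 2 ^ 20 ≤ (e ^ 4) ^ 2 := div_le_self (by positivity) (by norm_num)
        _ = e ^ 8 := by ring
        _ ≤ e ^ 1 := pow_le_pow_of_le_one he0.le hle (by norm_num)
        _ = e := pow_one e
    refine ⟨fun h => k0 (by omega), ?_, ?_, ?_⟩
    · rcases k1 with k | k
      · exact Or.inl (le_trans (by gcongr) k)
      · exact Or.inr (le_trans (by gcongr) k)
    · rcases k2 with k | k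
      · exact Or.inl (le_trans (by gcongr) k)
      · exact Or.inr (le_trans (by gcongr) k)
    · rcases k3 with k | k
      · exact Or.inl (le_trans (by gcongr) k)
      · exact Or.inr (le_trans (by gcongr) k)
  · rintro x y k ⟨h1, h2, h3⟩
    exact Pool.Agent.Helper6.HallRep.near_int hC he0 he1 h1 h2 h3
  · rintro x y x' y' ⟨h1, h2, h3⟩ ⟨h1', h2', h3'⟩ hlt
    have hxR : (0 : ℝ) < x := by linarith
    have hxR' : (0 : ℝ) < x' := by linarith
    have hx0 : 0 < x := by exact_mod_cast hxR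
    have := Pool.Agent.Helper6.HallRep.pair' hC he0 he1 hx0 hlt h3 h3'
    push_cast at this
    refine le_trans ?_ this
    have h4 : (e ^ 4) ^ 2 / 2 ^ 20 ≤ e ^ 2 / 2 := by
      calc (e ^ 4) ^ 2 / 2 ^ 20 = e ^ 8 / 2 ^ 20 := by ring
        _ ≤ e ^ 2 / 2 ^ 20 := by
            gcongr ?_ / _
            exact pow_le_pow_of_le_one he0.le hle (by norm_num)
        _ ≤ e ^ 2 / 2 := by gcongr; norm_num
    gcongr

end Pool.Agent.Results.MP_9d7cd1_nt.Repulsion
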