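import Mathlib

/-!
# Hall's conjecture and the number of exceptional `d`
-/

namespace Pool.Agent.Results.MP_9d7cd1_nt.SixthPowerThreshold

open Filter

/-- Some integral solution of `y² = x³ + d` has `|x| > |d| ^ κ`. -/
def Exceptional (κ : ℝ) (d : ℤ) : Prop :=
  ∃ x y : ℤ, x ≠ 0 ∧ y ^ 2 = x ^ 3 + d ∧ |(d : ℝ)| ^ κ < |(x : ℝ)|

/-- The number of the exceptional `d ≠ 0` with `|d| ≤ D`. -/
noncomputable def count (κ D : ℝ) : ℕ :=
  {d : ℤ | d ≠ 0 ∧ |(d : ℝ)| ≤ D ∧ Exceptional κ d}.ncard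

/-- Hall's inequality with exponent `κ`: `log |x| ≤ κ log |d| + C` for all solutions. -/
def Hall (κ : ℝ) : Prop :=
  ∃ C : ℝ, ∀ d x y : ℤ, d ≠ 0 → x ≠ 0 → y ^ 2 = x ^ 3 + d →
    Real.log |(x : ℝ)| ≤ κ * Real.log |(d : ℝ)| + C

lemma finite_set (κ D : ℝ) : {d : ℤ | d ≠ 0 ∧ |(d : ℝ)| ≤ D ∧ Exceptional κ d}.Finite := by
  apply Set.Finite.subset (Set.finite_Icc (-⌈D⌉) ⌈D⌉)
  rintro d ⟨_, h, _⟩
  have h1 := abs_le.mp (h.trans (Int.le_ceil D))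
  constructor
  · have : ((-⌈D⌉ : ℤ) : ℝ) ≤ d := by push_cast; exact h1.1
    exact_mod_cast this
  · exact_mod_cast h1.2

/-- Scaling a solution produces many exceptional `d`. -/
lemma many {κ : ℝ} (hκ : 1 / 3 < κ) {d x y : ℤ} (hd : d ≠ 0) (hx : x ≠ 0) (h : y ^ 2 = x ^ 3 + d)
    (T : ℕ) (hT : ((T : ℝ) ^ (6 * κ - 2)) * |(d : ℝ)| ^ κ < |(x : ℝ)|) :
    T ≤ count κ ((T : ℝ) ^ 6 * |(d : ℝ)|) := by
  have hd0 : (0 : ℝ) < |(d : ℝ)| := abs_pos.mpr (by exact_mod_cast hd)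
  have hinj : Set.InjOn (fun t : ℕ => (t : ℤ) ^ 6 * d) (Set.Icc 1 T) := by
    intro s _ t _ hst
    simp only at hst
    have h1 := mul_right_cancel₀ hd hst
    have h2 : s ^ 6 = t ^ 6 := by exact_mod_cast h1
    exact Nat.pow_left_injective (by norm_num) h2
  have hsub : (fun t : ℕ => (t : ℤ) ^ 6 * d) '' (Set.Icc 1 T) ⊆
      {d' : ℤ | d' ≠ 0 ∧ |(d' : ℝ)| ≤ (T : ℝ) ^ 6 * |(d : ℝ)| ∧ Exceptional κ d'} := by
    rintro _ ⟨t, ⟨ht1, htT⟩, rfl⟩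
    have ht0 : (t : ℤ) ≠ 0 := by exact_mod_cast (by omega : t ≠ 0)
    have htr : (1 : ℝ) ≤ t := by exact_mod_cast ht1
    have htp : (0 : ℝ) < t := by linarith
    have htT' : (t : ℝ) ≤ T := by exact_mod_cast htT
    refine ⟨mul_ne_zero (pow_ne_zero _ ht0) hd, ?_, (t : ℤ) ^ 2 * x, (t : ℤ) ^ 3 * y,
      mul_ne_zero (pow_ne_zero _ ht0) hx, ?_, ?_⟩
    · push_cast
      rw [abs_mul, abs_of_nonneg (by positivity : (0 : ℝ) ≤ (t : ℝ) ^ 6)]
      gcongr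
    · calc ((t : ℤ) ^ 3 * y) ^ 2 = (t : ℤ) ^ 6 * y ^ 2 := by ring
        _ = ((t : ℤ) ^ 2 * x) ^ 3 + (t : ℤ) ^ 6 * d := by rw [h]; ring
    · push_cast
      rw [abs_mul, abs_mul, abs_of_nonneg (by positivity : (0 : ℝ) ≤ (t : ℝ) ^ 6),
        abs_of_nonneg (by positivity : (0 : ℝ) ≤ (t : ℝ) ^ 2),
        Real.mul_rpow (by positivity) hd0.le]
      have e1 : ((t : ℝ) ^ 6) ^ κ = (t : ℝ) ^ 2 * (t : ℝ) ^ (6 * κ - 2) := by
        rw [← Real.rpow_natCast (t : ℝ) 6, ← Real.rpow_mul htp.le,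
          ← Real.rpow_natCast (t : ℝ) 2, ← Real.rpow_add htp]
        congr 1
        push_cast
        ring
      rw [e1, mul_assoc]
      have e2 : (t : ℝ) ^ (6 * κ - 2) ≤ (T : ℝ) ^ (6 * κ - 2) :=
        Real.rpow_le_rpow htp.le htT' (by linarith)
      have e3 : (t : ℝ) ^ (6 * κ - 2) * |(d : ℝ)| ^ κ < |(x : ℝ)| :=
        lt_of_le_of_lt (mul_le_mul_of_nonneg_right e2 (by positivity)) hT
      exact mul_lt_mul_of_pos_left e3 (by positivity)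
  have hcard : (Set.Icc 1 T).ncard = T := by
    rw [← Finset.coe_Icc, Set.ncard_coe_finset, Nat.card_Icc]; omega
  calc T = (Set.Icc 1 T).ncard := hcard.symm
    _ = ((fun t : ℕ => (t : ℤ) ^ 6 * d) '' (Set.Icc 1 T)).ncard := (Set.InjOn.ncard_image hinj).symm
    _ ≤ _ := Set.ncard_le_ncard hsub (finite_set _ _)

/-- Few exceptions imply an inequality without exceptions. -/
lemma main {κ θ C : ℝ} (hκ : 1 / 3 < κ) (hθ0 : 0 ≤ θ) (hθ : θ < 1 / 6)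
    (h : ∀ᶠ D : ℝ in atTop, (count κ D : ℝ) ≤ C * D ^ θ) : Hall ((κ - 2 * θ) / (1 - 6 * θ)) := by
  obtain ⟨D₀, hD₀⟩ := eventually_atTop.mp h
  set s : ℝ := 1 - 6 * θ with hs
  have hs0 : 0 < s := by rw [hs]; linarith
  set m : ℝ := 6 * κ - 2 with hm
  have hm0 : 0 < m := by rw [hm]; linarith
  -- `B` large
  set B : ℝ := max 1 (max D₀ ((2 * (|C| + 1)) ^ (1 / s))) with hB
  have hB1 : 1 ≤ B := le_max_left _ _
  have hB2 : D₀ ≤ B := (le_max_left _ _).trans (le_max_right _ _)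
  have hB3 : (2 * (|C| + 1)) ^ (1 / s) ≤ B := (le_max_right _ _).trans (le_max_right _ _)
  refine ⟨Real.log ((2 * B) ^ m), fun d x y hd hx hxy => ?_⟩
  have hd1 : (1 : ℝ) ≤ |(d : ℝ)| := by
    have : (1 : ℤ) ≤ |d| := Int.one_le_abs hd
    exact_mod_cast this
  have hd0 : (0 : ℝ) < |(d : ℝ)| := by linarith
  have hx0 : (0 : ℝ) < |(x : ℝ)| := abs_pos.mpr (by exact_mod_cast hx)
  -- the range of the scaling
  set T : ℕ := ⌈B * |(d : ℝ)| ^ (θ / s)⌉₊ with hT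
  have hone : (1 : ℝ) ≤ |(d : ℝ)| ^ (θ / s) := Real.one_le_rpow hd1 (by positivity)
  have hTge : B * |(d : ℝ)| ^ (θ / s) ≤ T := Nat.le_ceil _
  have hTB : B ≤ T := by nlinarith
  have hT1 : (1 : ℝ) ≤ T := hB1.trans hTB
  have hT0 : (0 : ℝ) < T := by linarith
  have hTle : (T : ℝ) ≤ 2 * B * |(d : ℝ)| ^ (θ / s) := by
    have := (Nat.ceil_lt_add_one (a := B * |(d : ℝ)| ^ (θ / s)) (by positivity)).le
    have h1 : (1 : ℝ) ≤ B * |(d : ℝ)| ^ (θ / s) := by nlinarith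
    calc (T : ℝ) ≤ B * |(d : ℝ)| ^ (θ / s) + 1 := this
      _ ≤ 2 * B * |(d : ℝ)| ^ (θ / s) := by linarith
  by_cases hbig : ((T : ℝ) ^ m) * |(d : ℝ)| ^ κ < |(x : ℝ)|
  · exfalso
    have h1 := many hκ hd hx hxy T hbig
    have h2 : D₀ ≤ (T : ℝ) ^ 6 * |(d : ℝ)| := by
      have h3 : (T : ℝ) ≤ (T : ℝ) ^ 6 := le_self_pow₀ hT1 (by norm_num)
      calc D₀ ≤ T := hB2.trans hTB
        _ ≤ (T : ℝ) ^ 6 := h3
        _ = (T : ℝ) ^ 6 * 1 := (mul_one _).symm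
        _ ≤ (T : ℝ) ^ 6 * |(d : ℝ)| := by gcongr
    have h3 := hD₀ _ h2
    have h4 : (T : ℝ) ≤ |C| * ((T : ℝ) ^ 6 * |(d : ℝ)|) ^ θ := by
      calc (T : ℝ) ≤ (count κ ((T : ℝ) ^ 6 * |(d : ℝ)|) : ℝ) := by exact_mod_cast h1
        _ ≤ C * ((T : ℝ) ^ 6 * |(d : ℝ)|) ^ θ := h3
        _ ≤ _ := mul_le_mul_of_nonneg_right (le_abs_self C) (by positivity)
    have h5 : ((T : ℝ) ^ 6 * |(d : ℝ)|) ^ θ = (T : ℝ) ^ (6 * θ) * |(d : ℝ)| ^ θ := by
      rw [Real.mul_rpow (by positivity) hd0.le, ← Real.rpow_natCast (T : ℝ) 6,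
        ← Real.rpow_mul hT0.le]
      norm_num
    have h6 : (T : ℝ) = (T : ℝ) ^ s * (T : ℝ) ^ (6 * θ) := by
      rw [← Real.rpow_add hT0, hs]
      ring_nf
      rw [Real.rpow_one]
    have h7 : (T : ℝ) ^ s ≤ |C| * |(d : ℝ)| ^ θ := by
      have h8 : (0 : ℝ) < (T : ℝ) ^ (6 * θ) := by positivity
      have h9 : (T : ℝ) ^ s * (T : ℝ) ^ (6 * θ) ≤ (|C| * |(d : ℝ)| ^ θ) * (T : ℝ) ^ (6 * θ) := by
        calc (T : ℝ) ^ s * (T : ℝ) ^ (6 * θ) = T := h6.symm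
          _ ≤ |C| * ((T : ℝ) ^ (6 * θ) * |(d : ℝ)| ^ θ) := by rw [← h5]; exact h4
          _ = _ := by ring
      exact le_of_mul_le_mul_right h9 h8
    have h8 : 2 * (|C| + 1) * |(d : ℝ)| ^ θ ≤ (T : ℝ) ^ s := by
      calc 2 * (|C| + 1) * |(d : ℝ)| ^ θ
          = ((2 * (|C| + 1)) ^ (1 / s) * |(d : ℝ)| ^ (θ / s)) ^ s := by
            rw [Real.mul_rpow (by positivity) (by positivity), ← Real.rpow_mul (by positivity),
              ← Real.rpow_mul hd0.le, one_div_mul_cancel hs0.ne', Real.rpow_one,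
              div_mul_cancel₀ _ hs0.ne']
        _ ≤ (B * |(d : ℝ)| ^ (θ / s)) ^ s := by
            apply Real.rpow_le_rpow (by positivity) _ hs0.le
            exact mul_le_mul_of_nonneg_right hB3 (by positivity)
        _ ≤ (T : ℝ) ^ s := Real.rpow_le_rpow (by positivity) hTge hs0.le
    have h9 : (0 : ℝ) < |(d : ℝ)| ^ θ := by positivity
    have h10 : 2 * (|C| + 1) * |(d : ℝ)| ^ θ ≤ |C| * |(d : ℝ)| ^ θ := h8.trans h7
    have h11 := le_of_mul_le_mul_right h10 h9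
    have := abs_nonneg C
    linarith
  · have h1 : |(x : ℝ)| ≤ (2 * B) ^ m * |(d : ℝ)| ^ ((κ - 2 * θ) / s) := by
      calc |(x : ℝ)| ≤ (T : ℝ) ^ m * |(d : ℝ)| ^ κ := not_lt.mp hbig
        _ ≤ (2 * B * |(d : ℝ)| ^ (θ / s)) ^ m * |(d : ℝ)| ^ κ := by
            apply mul_le_mul_of_nonneg_right _ (by positivity)
            exact Real.rpow_le_rpow hT0.le hTle hm0.le
        _ = (2 * B) ^ m * |(d : ℝ)| ^ ((κ - 2 * θ) / s) := by
            rw [Real.mul_rpow (by positivity) (by positivity), ← Real.rpow_mul hd0.le, mul_assoc,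
              ← Real.rpow_add hd0]
            congr 2
            rw [hm]
            field_simp
            rw [hs]
            ring
    calc Real.log |(x : ℝ)| ≤ Real.log ((2 * B) ^ m * |(d : ℝ)| ^ ((κ - 2 * θ) / s)) :=
          Real.log_le_log hx0 h1
      _ = (κ - 2 * θ) / s * Real.log |(d : ℝ)| + Real.log ((2 * B) ^ m) := by
          rw [Real.log_mul (by positivity) (by positivity), Real.log_rpow hd0]
          ring

/-- Hall's inequality with exponent `κ` leaves only boundedly many exceptions to each larger exponent. -/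
lemma few {κ κ' : ℝ} (hκ : κ < κ') (h : Hall κ) : ∃ K : ℝ, ∀ D : ℝ, (count κ' D : ℝ) ≤ K := by
  obtain ⟨C, hC⟩ := h
  set M : ℝ := Real.exp (C / (κ' - κ)) with hM
  refine ⟨(count κ' M : ℝ), fun D => ?_⟩
  have hsub : {d : ℤ | d ≠ 0 ∧ |(d : ℝ)| ≤ D ∧ Exceptional κ' d} ⊆
      {d : ℤ | d ≠ 0 ∧ |(d : ℝ)| ≤ M ∧ Exceptional κ' d} := by
    rintro d ⟨hd, _, he⟩
    refine ⟨hd, ?_, he⟩
    obtain ⟨x, y, hx, hxy, hlt⟩ := he
    have hd0 : (0 : ℝ) < |(d : ℝ)| := abs_pos.mpr (by exact_mod_cast hd)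
    have h1 := hC d x y hd hx hxy
    have h2 : κ' * Real.log |(d : ℝ)| < Real.log |(x : ℝ)| := by
      rw [← Real.log_rpow hd0]
      exact Real.log_lt_log (by positivity) hlt
    have h3 : Real.log |(d : ℝ)| ≤ C / (κ' - κ) := by
      rw [le_div_iff₀ (by linarith)]
      nlinarith
    rw [hM]
    calc |(d : ℝ)| = Real.exp (Real.log |(d : ℝ)|) := (Real.exp_log hd0).symm
      _ ≤ _ := Real.exp_le_exp.mpr h3
  exact Nat.cast_le.mpr (Set.ncard_le_ncard hsub (finite_set _ _))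

lemma mono {κ κ' : ℝ} (hκ : κ ≤ κ') (h : Hall κ) : Hall κ' := by
  obtain ⟨C, hC⟩ := h
  refine ⟨C, fun d x y hd hx hxy => ?_⟩
  have h1 := hC d x y hd hx hxy
  have hd1 : (1 : ℝ) ≤ |(d : ℝ)| := by
    have : (1 : ℤ) ≤ |d| := Int.one_le_abs hd
    exact_mod_cast this
  have h2 : 0 ≤ Real.log |(d : ℝ)| := Real.log_nonneg hd1
  nlinarith

/-- (1) If `O (D ^ θ)` integers `|d| ≤ D` are exceptional for the exponent `κ > 1 / 3` and `θ < 1 / 6`, then all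
integral solutions satisfy `log |x| ≤ (κ - 2 θ) / (1 - 6 θ) log |d| + C`. (2) Hall's inequality holds with some
exponent if and only if for some `κ` and some `θ < 1 / 6` the number of exceptional `|d| ≤ D` is `O (D ^ θ)`.
(3) Hall's conjecture holds if and only if for all `κ > 2` and `θ > 0` this number is `O (D ^ θ)`. -/
theorem result :
    (∀ κ θ C : ℝ, 1 / 3 < κ → 0 ≤ θ → θ < 1 / 6 → (∀ᶠ D : ℝ in atTop, (count κ D : ℝ) ≤ C * D ^ θ) →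
      ∃ C' : ℝ, ∀ d x y : ℤ, d ≠ 0 → x ≠ 0 → y ^ 2 = x ^ 3 + d →
        Real.log |(x : ℝ)| ≤ (κ - 2 * θ) / (1 - 6 * θ) * Real.log |(d : ℝ)| + C') ∧
    ((∃ κ : ℝ, Hall κ) ↔
      ∃ κ θ C : ℝ, θ < 1 / 6 ∧ ∀ᶠ D : ℝ in atTop, (count κ D : ℝ) ≤ C * D ^ θ) ∧
    ((∀ ε : ℝ, 0 < ε → ∃ C : ℝ, ∀ d x y : ℤ, d ≠ 0 → x ≠ 0 → y ^ 2 = x ^ 3 + d →
        Real.log |(x : ℝ)| < (2 + ε) * Real.log |(d : ℝ)| + C) ↔
      ∀ κ θ : ℝ, 2 < κ → 0 < θ → ∃ C : ℝ, ∀ᶠ D : ℝ in atTop, (count κ D : ℝ) ≤ C * D ^ θ) := by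
  refine ⟨fun κ θ C h1 h2 h3 h => main h1 h2 h3 h, ⟨?_, ?_⟩, ⟨?_, ?_⟩⟩
  · rintro ⟨κ, h⟩
    obtain ⟨K, hK⟩ := few (lt_add_one κ) h
    exact ⟨κ + 1, 0, K, by norm_num, Eventually.of_forall fun D => by simpa using hK D⟩
  · rintro ⟨κ, θ, C, hθ, h⟩
    -- enlarge the exponents
    have hmonoκ : ∀ D : ℝ, (count (max κ 1) D : ℝ) ≤ count κ D := by
      intro D
      have hsub : {d : ℤ | d ≠ 0 ∧ |(d : ℝ)| ≤ D ∧ Exceptional (max κ 1) d} ⊆
          {d : ℤ | d ≠ 0 ∧ |(d : ℝ)| ≤ D ∧ Exceptional κ d} := by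
        rintro d ⟨hd, hD, x, y, hx, hxy, hlt⟩
        refine ⟨hd, hD, x, y, hx, hxy, lt_of_le_of_lt ?_ hlt⟩
        have hd1 : (1 : ℝ) ≤ |(d : ℝ)| := by
          have : (1 : ℤ) ≤ |d| := Int.one_le_abs hd
          exact_mod_cast this
        exact Real.rpow_le_rpow_of_exponent_le hd1 (le_max_left _ _)
      exact Nat.cast_le.mpr (Set.ncard_le_ncard hsub (finite_set _ _))
    refine ⟨_, main (κ := max κ 1) (θ := max θ 0) (C := |C|) ?_ (le_max_right _ _) ?_ ?_⟩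
    · exact lt_of_lt_of_le (by norm_num) (le_max_right κ 1)
    · exact max_lt hθ (by norm_num)
    · filter_upwards [h, eventually_ge_atTop (1 : ℝ)] with D hD hD1
      calc (count (max κ 1) D : ℝ) ≤ count κ D := hmonoκ D
        _ ≤ C * D ^ θ := hD
        _ ≤ |C| * D ^ θ := mul_le_mul_of_nonneg_right (le_abs_self C) (by positivity)
        _ ≤ |C| * D ^ (max θ 0) := mul_le_mul_of_nonneg_left
            (Real.rpow_le_rpow_of_exponent_le hD1 (le_max_left _ _)) (abs_nonneg C)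
  · intro h κ θ hκ hθ
    have hH : Hall (2 + (κ - 2) / 2) := by
      obtain ⟨C, hC⟩ := h ((κ - 2) / 2) (by linarith)
      exact ⟨C, fun d x y hd hx hxy => (hC d x y hd hx hxy).le⟩
    obtain ⟨K, hK⟩ := few (κ' := κ) (by linarith) hH
    refine ⟨|K|, ?_⟩
    filter_upwards [eventually_ge_atTop (1 : ℝ)] with D hD1
    calc (count κ D : ℝ) ≤ K := hK D
      _ ≤ |K| := le_abs_self K
      _ = |K| * 1 := (mul_one _).symm
      _ ≤ |K| * D ^ θ := mul_le_mul_of_nonneg_left (Real.one_le_rpow hD1 hθ.le) (abs_nonneg K)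
  · intro h ε hε
    -- choose `κ = 2 + ε / 4` and `θ` small
    set θ : ℝ := min (1 / 12) (ε / (4 * (10 + 6 * ε))) with hθ
    have hθ0 : 0 < θ := lt_min (by norm_num) (by positivity)
    have hθ1 : θ ≤ 1 / 12 := min_le_left _ _
    have hθ2 : θ ≤ ε / (4 * (10 + 6 * ε)) := min_le_right _ _
    obtain ⟨C, hC⟩ := h (2 + ε / 4) θ (by linarith) hθ0
    have hH := main (κ := 2 + ε / 4) (θ := θ) (C := C) (by linarith) hθ0.le (by linarith) hC
    have hle : (2 + ε / 4 - 2 * θ) / (1 - 6 * θ) ≤ 2 + ε := by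
      rw [div_le_iff₀ (by linarith)]
      have h1 : θ * (4 * (10 + 6 * ε)) ≤ ε := by
        rwa [le_div_iff₀ (by positivity)] at hθ2
      nlinarith
    obtain ⟨C', hC'⟩ := mono hle hH
    exact ⟨C' + 1, fun d x y hd hx hxy => by
      have := hC' d x y hd hx hxy
      linarith⟩

end Pool.Agent.Results.MP_9d7cd1_nt.SixthPowerThreshold
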